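import Pool.Agent.Helper84.OB.Stmts

set_option autoImplicit false

universe u

open Set Pool.Agent.Helper84.BT
open scoped Matroid

namespace Pool.Agent.Helper51.OB

open Pool.Agent.Helper84.OB

theorem sk_mem_cyc {α : Type u} [Finite α] {M : Matroid α} {F : Set α} {x : α} (hx : x ∈ F)
    (h : x ∈ M.closure (F \ {x})) : x ∈ cyc M F := by
  obtain ⟨C, hCX, hC, hxC⟩ := Matroid.exists_isCircuit_of_mem_closure h (by simp)
  have hCF : C ⊆ F := by
    intro y hy
    have := hCX hy
    simp only [mem_insert_iff, mem_sdiff, mem_singleton_iff] at this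
    rcases this with rfl | h
    · exact hx
    · exact h.1
  have hcyc : IsCyclic M C := fun y hy => ⟨C, subset_rfl, hC, hy⟩
  exact hcyc.subset_cyc hCF hxC

theorem st_SK (h1 : ST_NU.{u}) : ST_SK.{u} := by
  intro α _ M X Y F hP hO hFX hne
  obtain ⟨hF, hKF, hcl⟩ := hO
  have hFE := hF.subset_ground
  have hAF : cyc M F ⊆ F := cyc_subset
  have hA : IsCyclicFlat M (cyc M F) := isCyclicFlat_cyc hF
  have hU : F = cyc M F ∪ (X ∩ Y) := by
    apply Subset.antisymm
    · intro x hx
      by_cases hK : x ∈ X ∩ Y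
      · exact Or.inr hK
      · exact Or.inl (sk_mem_cyc hx (hcl x ⟨hx, hK⟩))
    · exact union_subset hAF hKF
  have hcK : cyc M (X ∩ Y) ⊆ cyc M F := isCyclic_cyc.subset_cyc (cyc_subset.trans hKF)
  refine ⟨hA, hU, hcK, ?_⟩
  set A := cyc M F with hAdef
  have eU : A ∪ Y = F ∪ Y := by
    apply Subset.antisymm
    · exact union_subset_union_left _ hAF
    · rw [hU]
      intro x hx
      rcases hx with (hx | hx) | hx
      · exact Or.inl hx
      · exact Or.inr hx.2
      · exact Or.inr hx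
  have eI : A ∩ Y = A ∩ (X ∩ Y) := by
    ext x
    constructor
    · rintro ⟨ha, hy⟩
      exact ⟨ha, hFX (hAF ha), hy⟩
    · rintro ⟨ha, -, hy⟩
      exact ⟨ha, hy⟩
  have n1 := h1 α M A F hFE subset_rfl hAF
  have n2 := h1 α M (A ∩ (X ∩ Y)) (X ∩ Y) (hKF.trans hFE)
    (subset_inter hcK cyc_subset) inter_subset_right
  have n3 : F.ncard + (A ∩ (X ∩ Y)).ncard = A.ncard + (X ∩ Y).ncard := by
    have := Set.ncard_union_add_ncard_inter A (X ∩ Y) (Set.toFinite _) (Set.toFinite _)
    rwa [← hU] at this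
  have n5 := rk_submod M X (F ∪ Y)
  have e5 : X ∩ (F ∪ Y) = F := by
    ext x
    constructor
    · rintro ⟨hx, hx' | hx'⟩
      · exact hx'
      · exact hKF ⟨hx, hx'⟩
    · intro hx
      exact ⟨hFX hx, Or.inl hx⟩
  have e6 : X ∪ (F ∪ Y) = X ∪ Y := by
    rw [← union_assoc, union_eq_left.mpr hFX]
  rw [e5, e6] at n5
  have n6 := rk_submod M A Y
  by_contra hcon
  have hlt : rk M (A ∪ Y) + rk M (A ∩ Y) < rk M A + rk M Y := by omega
  have hd := hP.dmin A Y hA hP.hY hlt
  have hAX : A.ncard < X.ncard := by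
    apply Set.ncard_lt_ncard _ (Set.toFinite _)
    refine ⟨hAF.trans hFX, fun hXA => hne ?_⟩
    exact Subset.antisymm hFX (hXA.trans hAF)
  have hs := hP.smin A Y hA hP.hY (by
    rw [eU, eI] at hd ⊢
    rw [eU, eI] at hlt
    omega)
  omega

end Pool.Agent.Helper51.OB
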